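import Pool.Agent.N841.CC.Main
import Pool.Agent.N81.LZDOM
import Pool.Agent.N349.LZSIER

/-!
# MP_e8be47_lc: barely independent families over `ω₁` and over `𝔠`

`BarelyIndependent`, `Splits`, `splittingNumber` (`𝔰`) and `reapingNumber` (`𝔯`) are defined in
`Pool/Agent/N841/BI/Main.lean`, `dominatingNumber` (`𝔡`) and `SierpinskiSet` in
`Pool/Agent/N841/LZ/Stm.lean`, `ExistsBIF` in `Pool/Agent/N841/CC/Main.lean`.

* A barely independent family over a regular uncountable cardinal `κ` exists only if `𝔰 ≤ κ ≤ 𝔯`.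
* If `𝔯 = 𝔠` there is one over `𝔠`. So for regular `𝔠` there is one over `𝔠` if and only if `𝔯 = 𝔠`.
* There is one over `ω₁` if and only if there is an uncountable set `X` of subsets of `ω` such that
  every infinite subset of `ω` is split by all but countably many members of `X`; this is the case
  if `𝔡 = ω₁` and also if there is a Sierpiński set.
* So, if `𝔠 = ω₂`, there is a barely independent family over `ω₁` or over `𝔠` if and only if `𝔯 = 𝔠`
  or there is such a set `X`; and there is none, neither over `ω₁` nor over `𝔠`, if `𝔯 < 𝔰`.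

Proof. The traces of a countable subfamily give a sequence of subsets of `ω`, indexed by `κ`, such
that every infinite subset of `ω` is split by all but fewer than `κ` of them; and conversely. If
`𝔯 = 𝔠`, such a sequence of length `𝔠` is chosen along an enumeration of the infinite subsets of
`ω`. The case `𝔡 = ω₁` and the case of a Sierpiński set were written by helper81 and helper349.
-/

set_option autoImplicit false

namespace Pool.Agent.Results.MP_e8be47_lc.ReapingSplitting

open Cardinal Pool.Agent.N841.CC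
open _root_.N841.BI (BarelyIndependent Splits splittingNumber reapingNumber)
open Pool.Agent.N841.LZ (dominatingNumber SierpinskiSet)

theorem result :
    -- bounds
    (∀ κ : Cardinal.{0}, κ.IsRegular → ℵ₀ < κ → ExistsBIF κ →
      splittingNumber ≤ κ ∧ κ ≤ reapingNumber) ∧
    -- families over the continuum
    (reapingNumber = 𝔠 → ExistsBIF 𝔠) ∧
    ((𝔠 : Cardinal.{0}).IsRegular → (ExistsBIF 𝔠 ↔ reapingNumber = 𝔠)) ∧
    -- families over `ω₁`
    (ExistsBIF ℵ₁ ↔ ∃ X : Set (Set ℕ), ¬ X.Countable ∧
      ∀ R : Set ℕ, R.Infinite → {S | S ∈ X ∧ ¬ Splits S R}.Countable) ∧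
    (dominatingNumber = ℵ₁ ∨ SierpinskiSet → ExistsBIF ℵ₁) ∧
    -- the case `𝔠 = ω₂`
    (𝔠 = (ℵ_ 2 : Cardinal.{0}) →
      (ExistsBIF ℵ₁ ∨ ExistsBIF 𝔠 ↔ (∃ X : Set (Set ℕ), ¬ X.Countable ∧
        ∀ R : Set ℕ, R.Infinite → {S | S ∈ X ∧ ¬ Splits S R}.Countable) ∨ reapingNumber = 𝔠) ∧
      (reapingNumber < splittingNumber → ¬ ExistsBIF ℵ₁ ∧ ¬ ExistsBIF 𝔠)) :=
  ⟨fun _ h h0 hB => bounds h h0 hB, exists_of_reaping, continuum_iff, omega_one,
    fun h => omega_one_of h N81.LZDOM.t_DOM N349.LZSIER.t_SIER, fun h => (case_two h).2⟩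

end Pool.Agent.Results.MP_e8be47_lc.ReapingSplitting
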